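import Mathlib
import Pool.Agent.EMeas.Approx

/-!
# MP_a49cf6_nt: `π + e` and `π e` cannot both be approximated well by algebraic numbers
-/

set_option autoImplicit false

namespace Pool.Agent.Results.MP_a49cf6_nt.JointApproximation

open Polynomial

/-- For every degree `d` and every `ε > 0` there is `c > 0` such that for all algebraic numbers
`α`, `β`, roots of nonzero integer polynomials `A`, `B` of degree at most `d` with coefficients of
absolute value at most `H`, one of the distances `|π + e - α|`, `|π e - β|` is at least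
`c H ^ (-(4 d ^ 4 + 2 d ^ 2 + ε))`. -/
theorem result (d : ℕ) (ε : ℝ) (hε : 0 < ε) : ∃ c : ℝ, 0 < c ∧ ∀ (α β : ℂ) (A B : ℤ[X]),
    A ≠ 0 → B ≠ 0 → A.natDegree ≤ d → B.natDegree ≤ d → aeval α A = 0 → aeval β B = 0 →
    ∀ H : ℝ, (∀ k, |((A.coeff k : ℤ) : ℝ)| ≤ H) → (∀ k, |((B.coeff k : ℤ) : ℝ)| ≤ H) →
    c * H ^ (-(4 * (d : ℝ) ^ 4 + 2 * (d : ℝ) ^ 2 + ε)) ≤
      max ‖((Real.pi + Real.exp 1 : ℝ) : ℂ) - α‖ ‖((Real.pi * Real.exp 1 : ℝ) : ℂ) - β‖ :=
  Pool.Agent.EMeas.alg_approx d ε hε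

end Pool.Agent.Results.MP_a49cf6_nt.JointApproximation
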